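import Pool.Agent.H42.DeltaReg

namespace Pool.Agent.Results.MP_553296_lc.Full

open Cardinal

universe u

/-- `δ` is the least coordinate at which `x` and `y` differ. -/
def IsDelta {K : Type u} [LinearOrder K] (x y : K → Bool) (δ : K) : Prop :=
  x δ ≠ y δ ∧ ∀ i < δ, x i = y i

/-- The colour of a pair is below the first difference whenever that difference is not `0`. -/
def DeltaRegressive {K : Type u} [LinearOrder K] (c : Sym2 (K → Bool) → K) : Prop :=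
  ∀ (x y : K → Bool) (δ : K), IsDelta x y δ → (∃ j, j < δ) → c s(x, y) < δ

/-- `c` is constant on the pairs of distinct points of `Y`. -/
def Mono {K : Type u} (c : Sym2 (K → Bool) → K) (Y : Set (K → Bool)) : Prop :=
  ∃ col : K, ∀ x ∈ Y, ∀ y ∈ Y, x ≠ y → c s(x, y) = col

theorem result (κ : Cardinal.{u}) (hκ : ℵ₀ < κ) :
    (∀ c : Sym2 (κ.ord.ToType → Bool) → κ.ord.ToType, DeltaRegressive c →
      ∃ Y : Set (κ.ord.ToType → Bool), #Y = 4 ∧ Mono c Y) ∧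
    ((2 : Cardinal.{u}) ^ (ℵ₀ : Cardinal.{u}) < 2 ^ κ →
      ∀ c : Sym2 (κ.ord.ToType → Bool) → κ.ord.ToType, DeltaRegressive c →
        ∃ Y : Set (κ.ord.ToType → Bool), #Y = ℵ₁ ∧ Mono c Y) ∧
    ((2 : Cardinal.{u}) ^ (ℵ₀ : Cardinal.{u}) = 2 ^ κ →
      ∃ c : Sym2 (κ.ord.ToType → Bool) → κ.ord.ToType, DeltaRegressive c ∧
        ∀ Y : Set (κ.ord.ToType → Bool), Mono c Y → #Y ≤ 4) := by
  obtain ⟨e, w, he, hw, hi⟩ := Pool.Agent.H42.Reg.exists_nat_init hκ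
  refine ⟨fun c hc => ?_, fun hlt c hc => ?_, fun heq => ?_⟩
  · obtain ⟨Y, hY, col, hcol⟩ := Pool.Agent.H42.DeltaReg.four e w he hw hi
      (fun x y => c s(x, y)) (fun x y => by rw [Sym2.eq_swap])
      (fun x y δ h1 h2 h3 => hc x y δ ⟨h1, h2⟩ h3)
    refine ⟨Y, ?_, col, hcol⟩
    rw [Finset.coe_sort_coe, mk_coe_finset, hY]
    rfl
  · obtain ⟨Y, hY, col, hcol⟩ := Pool.Agent.H42.DeltaReg.mono_main (ν := ℵ₀) le_rfl hlt (e 0)
      (by
        have : Set.Iio (e 0) = ∅ := by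
          ext a
          simp only [Set.mem_Iio, Set.mem_empty_iff_false, iff_false]
          intro ha
          obtain ⟨k, rfl⟩ := hi a (ha.trans (hw 0))
          exact absurd (he.lt_iff_lt.1 ha) (Nat.not_lt_zero k)
        rw [this]; simp)
      (fun x y => c s(x, y)) (fun x y => by rw [Sym2.eq_swap])
      (fun x y δ h1 h2 h3 => hc x y δ ⟨h1, h2⟩ ⟨_, h3⟩)
    have h1 : ℵ₁ ≤ #Y := by rw [← succ_aleph0]; exact Order.succ_le_of_lt hY
    obtain ⟨Z, hZ, hZc⟩ := le_mk_iff_exists_subset.1 h1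
    exact ⟨Z, hZc, col, fun x hx y hy => hcol x (hZ hx) y (hZ hy)⟩
  · have hle : #(κ.ord.ToType → Bool) ≤ #(ULift.{u} (ℕ → Bool)) := by
      have h1 : #(κ.ord.ToType → Bool) = 2 ^ κ := by simp
      have h2 : #(ULift.{u} (ℕ → Bool)) = 2 ^ (ℵ₀ : Cardinal.{u}) := by simp
      rw [h1, h2, heq]
    obtain ⟨φ⟩ := (Cardinal.le_def _ _).1 hle
    obtain ⟨c, hs, hr, hm⟩ := Pool.Agent.H42.DeltaReg.no_five e w he hw hi
      (fun x => (φ x).down) (fun x y hxy => φ.injective (ULift.ext _ _ hxy))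
    refine ⟨Sym2.lift ⟨c, hs⟩, fun x y δ h1 h2 => hr x y δ h1.1 h1.2 h2, ?_⟩
    rintro Y ⟨col, hcol⟩
    exact hm Y col hcol

end Pool.Agent.Results.MP_553296_lc.Full
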